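import Pool.Agent.H97.HV.Targets

/-!
# Row FI1 of the board hov (MP_e37c09_lc): a normal measure of HOD(V_ γ)
-/

open _root_.HD HD.PRK HD.HV
open Ordinal Cardinal Order Set
open scoped ZFSet

universe u

namespace Pool.Agent.H1.HV

theorem lim_iff (a : Ordinal.{u}) : IsSuccLimit a ↔ 0 < a ∧ ∀ b < a, ∃ c < a, b < c := by
  constructor
  · intro h
    exact ⟨h.bot_lt, fun b hb => ⟨succ b, h.succ_lt hb, lt_succ b⟩⟩
  · rintro ⟨h0, h⟩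
    refine ⟨not_isMin_iff.2 ⟨0, h0⟩, isSuccPrelimit_of_succ_lt fun b hb => ?_⟩
    obtain ⟨c, hc, hbc⟩ := h b hb
    exact lt_of_le_of_lt (succ_le_of_lt hbc) hc

theorem ds_lim (δ : Ordinal.{u}) : DS {a : Ordinal.{u} | IsSuccLimit a ∧ a.cof.ord < δ} := by
  refine (DO.and (DO.and (DO.gtc 0 0) (DO.allLt (R := fun b w => ∃ c < w 0, b < c) 0
    (DO.exLt (R := fun c w => w 0 < c) 1 (DO.lt 1 0))))
    (DO.exLtc (R := fun μ w => Cf μ (w 0)) δ (do_Cf _root_.HD.All.la 0 1))).congr fun w => ?_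
  show IsSuccLimit (w 0) ∧ (w 0).cof.ord < δ ↔
    (0 < w 0 ∧ ∀ b < w 0, ∃ c < w 0, b < c) ∧ ∃ μ < δ, (w 0).cof.ord = μ
  rw [lim_iff]
  constructor
  · rintro ⟨h1, h2⟩
    exact ⟨h1, _, h2, rfl⟩
  · rintro ⟨h1, μ, h2, h3⟩
    exact ⟨h1, h3 ▸ h2⟩

/-- FI1. -/
theorem pf_FI1 (h0 : T_PVA.{u}) : T_FI1.{u} := by
  intro δ hδ K hK hK0 γ hfit hF
  have hom : (ℵ₀ : Cardinal.{u}).ord = ω := Cardinal.ord_aleph0
  obtain ⟨τ, -, S, hS, hne⟩ := hF ℵ₀ Cardinal.isRegular_aleph0 (by rw [hom]; exact hδ)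
  have hγ0 : 0 < γ := hfit.lim.bot_lt
  have hτ : 0 < τ := by
    rcases eq_or_ne τ 0 with h | h
    · exfalso
      refine hne ?_
      have h1 : Pos (ℵ₀ : Cardinal.{u}).ord K.ord univ :=
        _root_.HD.All.vc ℵ₀ K.ord Cardinal.isRegular_aleph0 (by rw [hK.cof_ord]; exact hK0)
      intro C hC
      obtain ⟨b, h2, h3, -, h4⟩ := h1 C hC
      refine ⟨b, h2, h3, ?_, h4⟩
      intro i hi
      rw [h] at hi
      exact absurd hi (not_lt.2 zero_le)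
    · exact pos_iff_ne_zero.2 h
  obtain ⟨hOD, -, hN⟩ := hS 0 hτ
  refine ⟨_, hN, ?_⟩
  have hsub : os K.ord {a : Ordinal.{u} | IsSuccLimit a ∧ a.cof.ord < δ} ⊆ K.ord.toZFSet := by
    intro z hz
    obtain ⟨a, ha, -, rfl⟩ := mem_os.1 hz
    exact Ordinal.toZFSet_mem_toZFSet_iff.2 ha
  have hNV : NV γ (os K.ord {a : Ordinal.{u} | IsSuccLimit a ∧ a.cof.ord < δ}) :=
    h0.2.2.2.2 γ K.ord _ hγ0 hsub (h0.1 γ _ hγ0 (od_os (ds_lim δ) K.ord))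
  unfold US
  rw [ZFSet.mem_sep, ZFSet.mem_powerset]
  refine ⟨hsub, hNV, ?_⟩
  intro hP
  have hK1 : IsSuccLimit K.ord := Cardinal.isSuccLimit_ord hK0.le
  obtain ⟨b, hbK, -, ⟨-, hb⟩, hcf⟩ := hP univ
    ⟨fun a ha => ⟨succ a, hK1.succ_lt ha, lt_succ a, mem_univ _⟩, fun x _ _ _ => mem_univ _⟩
  refine hb (ord_mem_os.2 ⟨hbK, ?_, ?_⟩)
  · have h1 : b.cof = ℵ₀ := by
      have h2 : b.cof.ord = (ℵ₀ : Cardinal.{u}).ord := hcf
      exact Cardinal.ord_injective h2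
    rw [← Ordinal.one_lt_cof_iff, h1]
    exact Cardinal.one_lt_aleph0
  · show b.cof.ord < δ
    have h2 : b.cof.ord = (ℵ₀ : Cardinal.{u}).ord := hcf
    rw [h2, hom]
    exact hδ

end Pool.Agent.H1.HV
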