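import Pool.Agent.H97.HV.Targets3
import Pool.Agent.H97.PRK.All
import Pool.Agent.H17.HD.XK

/-!
# Row FPT of the board hov (MP_e37c09_lc): the finest partition
-/

open Ordinal Cardinal Order Set
open scoped ZFSet

universe u

namespace Pool.Agent.H1.HV

open _root_.HD HD.PRK HD.HV

/-- the values of the relation with code `z` at `x` and at `y` are equal -/
def EqC (en : Ordinal.{u} → ZFSet.{u}) (z : Ordinal.{u}) (x y : ZFSet.{u}) : Prop :=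
  ∀ a, ZFSet.pair x a ∈ en z ↔ ZFSet.pair y a ∈ en z

/-- `z` splits over the codes in `A` -/
def SpA (en : Ordinal.{u} → ZFSet.{u}) (μ κ : Ordinal.{u}) (A : Set Ordinal.{u})
    (z : Ordinal.{u}) : Prop :=
  ∃ x ⊆ κ.toZFSet, ∃ y ⊆ κ.toZFSet,
    PosX μ κ (fun w => (∀ k ∈ A, EqC en k w x) ∧ EqC en z w x) ∧
    PosX μ κ (fun w => (∀ k ∈ A, EqC en k w y) ∧ EqC en z w y) ∧
    (∀ k ∈ A, EqC en k x y) ∧ ¬ EqC en z x y

theorem agv_succ {F x y : ZFSet.{u}} {i : Ordinal.{u}} :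
    AgV F x y (succ i) ↔ AgV F x y i ∧ Eqv F x y i := by
  constructor
  · intro h
    exact ⟨fun k hk => h k (hk.trans (lt_succ i)), h i (lt_succ i)⟩
  · rintro ⟨h1, h2⟩ k hk
    rcases (lt_succ_iff.1 hk).lt_or_eq with h | h
    · exact h1 k h
    · rw [h]; exact h2

theorem spl_iff {en : Ordinal.{u} → ZFSet.{u}} {μ κ : Ordinal.{u}} {F : ZFSet.{u}}
    {i z : Ordinal.{u}} {A : Set Ordinal.{u}}
    (h1 : ∀ x y, AgV F x y i ↔ ∀ k ∈ A, EqC en k x y)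
    (h2 : ∀ x y, Eqv F x y i ↔ EqC en z x y) : SplV μ κ F i ↔ SpA en μ κ A z := by
  unfold SplV SpA PcV
  simp only [agv_succ, h1, h2]

/-- the family with the codes as places -/
def CodeF (en : Ordinal.{u} → ZFSet.{u}) (z : Ordinal.{u}) (A : Set Ordinal.{u})
    (G : ZFSet.{u}) : Prop :=
  ∀ t, t ∈ G ↔ ∃ x k a, t = ZFSet.pair x (ZFSet.pair k a) ∧
    (k = z.toZFSet ∨ k ∈ os z A) ∧ k.IsOrdinal ∧ ZFSet.pair x a ∈ en k.rank

theorem codeF_mem {en : Ordinal.{u} → ZFSet.{u}} {z : Ordinal.{u}} {A : Set Ordinal.{u}}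
    {G : ZFSet.{u}} (hG : CodeF en z A G) (x : ZFSet.{u}) (k : Ordinal.{u}) (a : ZFSet.{u}) :
    ZFSet.pair x (ZFSet.pair k.toZFSet a) ∈ G ↔
      (k = z ∨ (k < z ∧ k ∈ A)) ∧ ZFSet.pair x a ∈ en k := by
  rw [hG]
  constructor
  · rintro ⟨x', k', a', h1, h2, h3, h4⟩
    obtain ⟨rfl, h5⟩ := ZFSet.pair_injective h1
    obtain ⟨rfl, rfl⟩ := ZFSet.pair_injective h5
    rw [rank_toZFSet] at h4
    refine ⟨?_, h4⟩
    rcases h2 with h2 | h2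
    · exact Or.inl (toZFSet_injective h2)
    · exact Or.inr (ord_mem_os.1 h2)
  · rintro ⟨h1, h2⟩
    refine ⟨x, k.toZFSet, a, rfl, ?_, ZFSet.isOrdinal_toZFSet _, by rwa [rank_toZFSet]⟩
    rcases h1 with rfl | h1
    · exact Or.inl rfl
    · exact Or.inr (ord_mem_os.2 h1)

theorem codeF_spl {en : Ordinal.{u} → ZFSet.{u}} {μ κ z : Ordinal.{u}} {A : Set Ordinal.{u}}
    {G : ZFSet.{u}} (hG : CodeF en z A G) (hA : A ⊆ Iio z) :
    SplV μ κ G z ↔ SpA en μ κ A z := by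
  refine spl_iff (fun x y => ?_) (fun x y => ?_)
  · constructor
    · intro h k hk a
      have h1 := h k (hA hk) a
      rw [codeF_mem hG, codeF_mem hG] at h1
      have h2 : k = z ∨ (k < z ∧ k ∈ A) := Or.inr ⟨hA hk, hk⟩
      simpa [h2] using h1
    · intro h k hk a
      rw [codeF_mem hG, codeF_mem hG]
      by_cases h2 : k ∈ A
      · exact and_congr_right fun _ => h k h2 a
      · have h3 : ¬ (k = z ∨ (k < z ∧ k ∈ A)) := by
          rintro (h | h)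
          · exact hk.ne h
          · exact h2 h.2
        simp [h3]
  · constructor
    · intro h a
      have h1 := h a
      rw [codeF_mem hG, codeF_mem hG] at h1
      simpa using h1
    · intro h a
      rw [codeF_mem hG, codeF_mem hG]
      exact and_congr_right fun _ => h a

/-- the values of the relation with code `z` are subsets of `V_ l` for some `l < γ` -/
def GoodZ (en : Ordinal.{u} → ZFSet.{u}) (γ z : Ordinal.{u}) : Prop :=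
  ∃ l < γ, ∀ x a, ZFSet.pair x a ∈ en z → a ∈ V_ l

/-- the step of the recursion -/
def Phi (en : Ordinal.{u} → ZFSet.{u}) (γ μ κ z : Ordinal.{u}) (A : Set Ordinal.{u})
    (_ : ℕ → Ordinal.{u}) : Prop :=
  GoodZ en γ z ∧ ∃ G, CodeF en z A G ∧ SplV μ κ G z

theorem dz_spl (hL : T_LOV.{u}) (μ κ : Ordinal.{u}) :
    DZ.{u} fun v => (v 1).IsOrdinal ∧ SplV μ κ (v 0) (v 1).rank := by
  have h2 : DZ.{u} fun v => (μ.toZFSet.IsOrdinal ∧ κ.toZFSet.IsOrdinal ∧ (v 1).IsOrdinal ∧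
      SplV μ.toZFSet.rank κ.toZFSet.rank (v 0) (v 1).rank) := by
    refine DZ.od (R := fun m v => m.IsOrdinal ∧ κ.toZFSet.IsOrdinal ∧ (v 1).IsOrdinal ∧
      SplV m.rank κ.toZFSet.rank (v 0) (v 1).rank) (OD.ordinal μ) ?_
    refine DZ.od (R := fun k v => (v 0).IsOrdinal ∧ k.IsOrdinal ∧ (v 2).IsOrdinal ∧
      SplV (v 0).rank k.rank (v 1) (v 2).rank) (OD.ordinal κ) ?_
    refine (hL.dz.ren fun n => if n = 0 then 1 else if n = 1 then 0 else n).congr fun v => ?_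
    simp
  refine h2.congr fun v => ?_
  rw [rank_toZFSet, rank_toZFSet]
  exact ⟨fun h => ⟨ZFSet.isOrdinal_toZFSet _, ZFSet.isOrdinal_toZFSet _, h⟩, fun h => h.2.2⟩

theorem dz_good {en : Ordinal.{u} → ZFSet.{u}} (hen : EN en) (γ : Ordinal.{u}) (i : ℕ) :
    DZ.{u} fun v => (v i).IsOrdinal ∧ GoodZ en γ (v i).rank := by
  have h1 : DZ.{u} fun v => (v i).IsOrdinal ∧ ∃ l ∈ γ.toZFSet, ∃ W, (l.IsOrdinal ∧
      W = V_ l.rank) ∧ ∀ x a, ZFSet.pair x a ∈ en (v i).rank → a ∈ W := by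
    refine NF.dz_en' hen (R := fun e v => ∃ l ∈ γ.toZFSet, ∃ W, (l.IsOrdinal ∧
      W = V_ l.rank) ∧ ∀ x a, ZFSet.pair x a ∈ e → a ∈ W) i ?_
    refine DZ.od (R := fun g v => ∃ l ∈ g, ∃ W, (l.IsOrdinal ∧
      W = V_ l.rank) ∧ ∀ x a, ZFSet.pair x a ∈ v 0 → a ∈ W) (OD.ordinal γ) ?_
    refine DZ.exMem (R := fun l v => ∃ W, (l.IsOrdinal ∧
      W = V_ l.rank) ∧ ∀ x a, ZFSet.pair x a ∈ v 1 → a ∈ W) 0 ?_
    refine DZ.ex (R := fun W v => ((v 0).IsOrdinal ∧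
      W = V_ (v 0).rank) ∧ ∀ x a, ZFSet.pair x a ∈ v 2 → a ∈ W) ?_
    refine DZ.and (loc_V 1 0).dz ?_
    refine DZ.all (R := fun x v => ∀ a, ZFSet.pair x a ∈ v 3 → a ∈ v 0) ?_
    refine DZ.all (R := fun a v => ZFSet.pair (v 0) a ∈ v 4 → a ∈ v 1) ?_
    exact (loc_pmem 1 0 5).dz.imp (DZ.mem 0 2)
  refine h1.congr fun v => and_congr_right fun _ => ?_
  constructor
  · rintro ⟨l, hl, h⟩
    refine ⟨l.toZFSet, toZFSet_mem_toZFSet_iff.2 hl, V_ l, ⟨ZFSet.isOrdinal_toZFSet _, ?_⟩, h⟩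
    rw [rank_toZFSet]
  · rintro ⟨l, hl, W, ⟨-, rfl⟩, h⟩
    obtain ⟨l, hl', rfl⟩ := mem_toZFSet_iff.1 hl
    rw [rank_toZFSet] at h
    exact ⟨l, hl', h⟩

theorem do_phi (hL : T_LOV.{u}) {en : Ordinal.{u} → ZFSet.{u}} (hen : EN en)
    (γ μ κ : Ordinal.{u}) :
    DO.{u} fun w => Phi en γ μ κ (w 0) (E en (w 1) ∩ Iio (w 0)) (fun n => w (n + 2)) := by
  have h1 : DZ.{u} fun v => ((v 0).IsOrdinal ∧ GoodZ en γ (v 0).rank) ∧
      ((v 1).IsOrdinal ∧ ∃ G, (∀ t, t ∈ G ↔ ∃ x k a, t = ZFSet.pair x (ZFSet.pair k a) ∧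
        (k = v 0 ∨ (k ∈ v 0 ∧ k ∈ en (v 1).rank)) ∧ k.IsOrdinal ∧
          ZFSet.pair x a ∈ en k.rank) ∧ ((v 0).IsOrdinal ∧ SplV μ κ G (v 0).rank)) := by
    refine DZ.and (dz_good hen γ 0) ?_
    refine NF.dz_en' hen (R := fun e v => ∃ G, (∀ t, t ∈ G ↔ ∃ x k a,
      t = ZFSet.pair x (ZFSet.pair k a) ∧
        (k = v 0 ∨ (k ∈ v 0 ∧ k ∈ e)) ∧ k.IsOrdinal ∧
          ZFSet.pair x a ∈ en k.rank) ∧ ((v 0).IsOrdinal ∧ SplV μ κ G (v 0).rank)) 1 ?_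
    -- v 0 = e, v 1 = z
    refine DZ.ex (R := fun G v => (∀ t, t ∈ G ↔ ∃ x k a,
      t = ZFSet.pair x (ZFSet.pair k a) ∧
        (k = v 1 ∨ (k ∈ v 1 ∧ k ∈ v 0)) ∧ k.IsOrdinal ∧
          ZFSet.pair x a ∈ en k.rank) ∧ ((v 1).IsOrdinal ∧ SplV μ κ G (v 1).rank)) ?_
    -- v 0 = G, v 1 = e, v 2 = z
    refine DZ.and ?_ ?_
    · refine DZ.all (R := fun t v => t ∈ v 0 ↔ ∃ x k a,
        t = ZFSet.pair x (ZFSet.pair k a) ∧
          (k = v 2 ∨ (k ∈ v 2 ∧ k ∈ v 1)) ∧ k.IsOrdinal ∧ ZFSet.pair x a ∈ en k.rank) ?_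
      refine (DZ.mem 0 1).iff ?_
      -- v 0 = t, v 1 = G, v 2 = e, v 3 = z
      refine DZ.ex (R := fun x v => ∃ k a,
        v 0 = ZFSet.pair x (ZFSet.pair k a) ∧
          (k = v 3 ∨ (k ∈ v 3 ∧ k ∈ v 2)) ∧ k.IsOrdinal ∧ ZFSet.pair x a ∈ en k.rank) ?_
      refine DZ.ex (R := fun k v => ∃ a,
        v 1 = ZFSet.pair (v 0) (ZFSet.pair k a) ∧
          (k = v 4 ∨ (k ∈ v 4 ∧ k ∈ v 3)) ∧ k.IsOrdinal ∧ ZFSet.pair (v 0) a ∈ en k.rank) ?_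
      refine DZ.ex (R := fun a v =>
        v 2 = ZFSet.pair (v 1) (ZFSet.pair (v 0) a) ∧
          (v 0 = v 5 ∨ (v 0 ∈ v 5 ∧ v 0 ∈ v 4)) ∧ (v 0).IsOrdinal ∧
            ZFSet.pair (v 1) a ∈ en (v 0).rank) ?_
      -- v 0 = a, v 1 = k, v 2 = x, v 3 = t, v 4 = G, v 5 = e, v 6 = z
      refine DZ.and ?_ (DZ.and ?_ ?_)
      · refine (DZ.ex (R := fun p v => p = ZFSet.pair (v 1) (v 0) ∧ v 3 = ZFSet.pair (v 2) p)
          ((loc_pair 0 2 1).dz.and (loc_pair 4 3 0).dz)).congr fun v => ?_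
        simp
      · exact (DZ.eq 1 6).or ((DZ.mem 1 6).and (DZ.mem 1 5))
      · exact NF.dz_en' hen (R := fun e v => ZFSet.pair (v 2) (v 0) ∈ e) 1 (loc_pmem 3 1 0).dz
    · refine (dz_spl hL μ κ).ren (fun n => if n = 0 then 0 else 2) |>.congr fun v => ?_
      simp
  refine ⟨_, h1, fun w => ?_⟩
  show GoodZ en γ (w 0) ∧ (∃ G, CodeF en (w 0) (E en (w 1) ∩ Iio (w 0)) G ∧ SplV μ κ G (w 0)) ↔
    ((w 0).toZFSet.IsOrdinal ∧ GoodZ en γ (w 0).toZFSet.rank) ∧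
      ((w 1).toZFSet.IsOrdinal ∧ ∃ G, (∀ t, t ∈ G ↔ ∃ x k a, t = ZFSet.pair x (ZFSet.pair k a) ∧
        (k = (w 0).toZFSet ∨ (k ∈ (w 0).toZFSet ∧ k ∈ en (w 1).toZFSet.rank)) ∧ k.IsOrdinal ∧
          ZFSet.pair x a ∈ en k.rank) ∧
            ((w 0).toZFSet.IsOrdinal ∧ SplV μ κ G (w 0).toZFSet.rank))
  rw [rank_toZFSet, rank_toZFSet]
  have hk : ∀ k : ZFSet.{u}, k ∈ os (w 0) (E en (w 1) ∩ Iio (w 0)) ↔
      k ∈ (w 0).toZFSet ∧ k ∈ en (w 1) := by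
    intro k
    rw [mem_os]
    constructor
    · rintro ⟨a, h2, ⟨h3, -⟩, rfl⟩
      exact ⟨toZFSet_mem_toZFSet_iff.2 h2, h3⟩
    · rintro ⟨h2, h3⟩
      obtain ⟨a, h4, rfl⟩ := mem_toZFSet_iff.1 h2
      exact ⟨a, h4, ⟨h3, h4⟩, rfl⟩
  unfold CodeF
  simp only [hk, ZFSet.isOrdinal_toZFSet, true_and]

theorem gd_bound (β : Ordinal.{u}) (f : Ordinal.{u} → ZFSet.{u}) :
    ∃ η, Gd η ∧ β < η ∧ ∀ i < β, f i ∈ V_ η := by
  set ρ : Ordinal.{u} := max β (⨆ t : β.ToType, (f (Ordinal.ToType.mk.symm t).1).rank) with hρ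
  have h1 : (0 : Ordinal.{u}) < ω := Ordinal.omega0_pos
  have hlt : ρ < ρ + ω + ω := (lt_add_of_pos_right _ h1).trans_le le_self_add
  refine ⟨ρ + ω + ω, ⟨Ordinal.isSuccLimit_add _ Ordinal.isSuccLimit_omega0, ?_⟩,
    (le_max_left _ _).trans_lt hlt, fun i hi => ?_⟩
  · calc (ω : Ordinal.{u}) ≤ ρ + ω := le_add_self
      _ < ρ + ω + ω := lt_add_of_pos_right _ h1
  · rw [ZFSet.mem_vonNeumann]
    refine lt_of_le_of_lt ?_ hlt
    refine le_trans ?_ (le_max_right _ _)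
    have h2 := le_ciSup (f := fun t : β.ToType => (f (Ordinal.ToType.mk.symm t).1).rank)
      Ordinal.bddAbove_of_small (Ordinal.ToType.mk ⟨i, hi⟩)
    simpa using h2

theorem mem_V_pair {η : Ordinal.{u}} {x a : ZFSet.{u}} (h : ZFSet.pair x a ∈ V_ η) :
    x ∈ V_ η ∧ a ∈ V_ η := by
  have h1 : ({x} : ZFSet.{u}) ∈ ZFSet.pair x a := by
    show ({x} : ZFSet.{u}) ∈ ({{x}, {x, a}} : ZFSet.{u})
    simp
  have h2 : ({x, a} : ZFSet.{u}) ∈ ZFSet.pair x a := by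
    show ({x, a} : ZFSet.{u}) ∈ ({{x}, {x, a}} : ZFSet.{u})
    simp
  exact ⟨mem_V_of_mem (by simp) (mem_V_of_mem h1 h), mem_V_of_mem (by simp) (mem_V_of_mem h2 h)⟩

theorem codeF_ex (en : Ordinal.{u} → ZFSet.{u}) (z : Ordinal.{u}) (A : Set Ordinal.{u}) :
    ∃ G, CodeF en z A G := by
  obtain ⟨η, hη, hzη, hη'⟩ := gd_bound (succ z) en
  refine ⟨ZFSet.sep (fun t => ∃ x k a, t = ZFSet.pair x (ZFSet.pair k a) ∧
    (k = z.toZFSet ∨ k ∈ os z A) ∧ k.IsOrdinal ∧ ZFSet.pair x a ∈ en k.rank) (V_ η),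
    fun t => ?_⟩
  rw [ZFSet.mem_sep]
  refine ⟨fun h => h.2, fun h => ⟨?_, h⟩⟩
  obtain ⟨x, k, a, rfl, h1, h2, h3⟩ := h
  obtain ⟨k, rfl⟩ := ord_of h2
  rw [rank_toZFSet] at h3
  have hk : k < succ z := by
    rcases h1 with h1 | h1
    · rw [toZFSet_injective h1]
      exact lt_succ z
    · exact (ord_mem_os.1 h1).1.trans (lt_succ z)
  obtain ⟨h4, h5⟩ := mem_V_pair (mem_V_of_mem h3 (hη' k hk))
  exact hη.pair h4 (hη.pair (Gd.ord.2 (hk.trans hzη)) h5)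

/-- the family with the indices as places -/
def Fam (en : Ordinal.{u} → ZFSet.{u}) (X : Set Ordinal.{u}) (β : Ordinal.{u})
    (F : ZFSet.{u}) : Prop :=
  ∀ (x : ZFSet.{u}) (i : Ordinal.{u}) (a : ZFSet.{u}),
    ZFSet.pair x (ZFSet.pair i.toZFSet a) ∈ F ↔
      i < β ∧ ∃ z, nth X i z ∧ ZFSet.pair x a ∈ en z

theorem fam_ex {en : Ordinal.{u} → ZFSet.{u}} (hen : EN en) {X : Set Ordinal.{u}} (hX : DS X)
    (β : Ordinal.{u}) : ∃ F, OD F ∧ Fam en X β F := by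
  classical
  obtain ⟨Q, hQ, hQn⟩ := Pool.Agent.H17.HD.XK.dr_nth HD.All.db hX
  have hq : ∀ i z : Ordinal.{u}, Q (fun n => if n = 0 then i.toZFSet else z.toZFSet) ↔
      nth X i z := by
    intro i z
    have h3 := hQn (fun n => if n = 0 then i else z)
    have e : ov (fun n => if n = 0 then i else z) =
        fun n => if n = 0 then i.toZFSet else z.toZFSet := by
      funext n
      show (if n = 0 then i else z).toZFSet = _
      split_ifs <;> rfl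
    rw [e] at h3
    exact h3.symm
  let zf : Ordinal.{u} → Ordinal.{u} := fun i => if h : ∃ z, nth X i z then h.choose else 0
  have hzf : ∀ i z, nth X i z → zf i = z := by
    intro i z hz
    have h : ∃ z, nth X i z := ⟨z, hz⟩
    show (if h : ∃ z, nth X i z then h.choose else 0) = z
    rw [dif_pos h]
    exact Pool.Agent.H17.HD.XK.nth_uniq HD.All.vh h.choose_spec hz
  obtain ⟨η, hη, hβη, hη'⟩ := gd_bound β (fun i => en (zf i))
  set P : ZFSet.{u} → Prop := fun t => ∃ x i a, t = ZFSet.pair x (ZFSet.pair i a) ∧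
    i ∈ β.toZFSet ∧ ∃ z, Q (fun n => if n = 0 then i else z) ∧ z.IsOrdinal ∧
      ZFSet.pair x a ∈ en z.rank with hP
  refine ⟨ZFSet.sep P (V_ η), Pool.Agent.H45.NF.od_sep (NF.od_V _) ?_, fun x i a => ?_⟩
  · refine DZ.ex (R := fun x v => ∃ i a, v 0 = ZFSet.pair x (ZFSet.pair i a) ∧
      i ∈ β.toZFSet ∧ ∃ z, Q (fun n => if n = 0 then i else z) ∧ z.IsOrdinal ∧
      ZFSet.pair x a ∈ en z.rank) ?_
    refine DZ.ex (R := fun i v => ∃ a, v 1 = ZFSet.pair (v 0) (ZFSet.pair i a) ∧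
      i ∈ β.toZFSet ∧ ∃ z, Q (fun n => if n = 0 then i else z) ∧ z.IsOrdinal ∧
      ZFSet.pair (v 0) a ∈ en z.rank) ?_
    refine DZ.ex (R := fun a v => v 2 = ZFSet.pair (v 1) (ZFSet.pair (v 0) a) ∧
      v 0 ∈ β.toZFSet ∧ ∃ z, Q (fun n => if n = 0 then v 0 else z) ∧ z.IsOrdinal ∧
      ZFSet.pair (v 1) a ∈ en z.rank) ?_
    -- v 0 = a, v 1 = i, v 2 = x, v 3 = t
    refine DZ.and ?_ (DZ.and ?_ ?_)
    · refine (DZ.ex (R := fun p v => p = ZFSet.pair (v 1) (v 0) ∧ v 3 = ZFSet.pair (v 2) p)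
        ((loc_pair 0 2 1).dz.and (loc_pair 4 3 0).dz)).congr fun v => ?_
      simp
    · exact DZ.od (R := fun b v => v 1 ∈ b) (OD.ordinal β) (DZ.mem 2 0)
    · refine DZ.ex (R := fun z v => Q (fun n => if n = 0 then v 1 else z) ∧ z.IsOrdinal ∧
        ZFSet.pair (v 2) (v 0) ∈ en z.rank) ?_
      refine DZ.and ?_ ?_
      · refine (hQ.ren fun n => if n = 0 then 2 else 0).congr fun v => ?_
        have e : (fun n => if n = 0 then v 2 else v 0) = fun n => v (if n = 0 then 2 else 0) := by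
          funext n
          split_ifs <;> rfl
        rw [e]
      · exact NF.dz_en' hen (R := fun e v => ZFSet.pair (v 3) (v 1) ∈ e) 0 (loc_pmem 4 2 0).dz
  · rw [ZFSet.mem_sep]
    constructor
    · rintro ⟨-, x', i', a', h1, h2, z, h3, h4, h5⟩
      obtain ⟨rfl, h6⟩ := ZFSet.pair_injective h1
      obtain ⟨rfl, rfl⟩ := ZFSet.pair_injective h6
      obtain ⟨z, rfl⟩ := ord_of h4
      rw [rank_toZFSet] at h5
      exact ⟨toZFSet_mem_toZFSet_iff.1 h2, z, (hq i z).1 h3, h5⟩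
    · rintro ⟨hi, z, hz, hm⟩
      have h7 := hη' i hi
      simp only [hzf i z hz] at h7
      obtain ⟨h4, h5⟩ := mem_V_pair (mem_V_of_mem hm h7)
      refine ⟨hη.pair h4 (hη.pair (Gd.ord.2 (hi.trans hβη)) h5), x, i.toZFSet, a, rfl,
        toZFSet_mem_toZFSet_iff.2 hi, z.toZFSet, (hq i z).2 hz, ZFSet.isOrdinal_toZFSet _, ?_⟩
      rwa [rank_toZFSet]

theorem fam_eqv {en : Ordinal.{u} → ZFSet.{u}} {X : Set Ordinal.{u}} {β : Ordinal.{u}}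
    {F : ZFSet.{u}} (hF : Fam en X β F) {i z : Ordinal.{u}} (hi : i < β) (hz : nth X i z)
    (x y : ZFSet.{u}) : Eqv F x y i ↔ EqC en z x y := by
  have h1 : ∀ x a, ZFSet.pair x (ZFSet.pair i.toZFSet a) ∈ F ↔ ZFSet.pair x a ∈ en z := by
    intro x a
    rw [hF]
    constructor
    · rintro ⟨-, z', hz', h⟩
      rwa [Pool.Agent.H17.HD.XK.nth_uniq HD.All.vh hz hz']
    · intro h
      exact ⟨hi, z, hz, h⟩
  unfold Eqv EqC
  simp only [h1]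

theorem fam_agv {en : Ordinal.{u} → ZFSet.{u}} {X : Set Ordinal.{u}} {β : Ordinal.{u}}
    {F : ZFSet.{u}} (hF : Fam en X β F) {σ z0 : Ordinal.{u}} (hσ : σ < β) (hz0 : nth X σ z0)
    (x y : ZFSet.{u}) : AgV F x y σ ↔ ∀ k ∈ X ∩ Iio z0, EqC en k x y := by
  obtain ⟨v1, v2, v3, -⟩ := HD.All.vh X
  constructor
  · rintro h k ⟨hkX, hk⟩
    obtain ⟨a, -, ha⟩ := v1 k hkX
    have h1 : a < σ := (v2 _ _ _ _ ha hz0).2 hk
    exact (fam_eqv hF (h1.trans hσ) ha x y).1 (h a h1)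
  · intro h a ha
    obtain ⟨k, hk, hak⟩ := v3 σ z0 hz0 a ha
    exact (fam_eqv hF (ha.trans hσ) hak x y).2 (h k ⟨hak.1, hk⟩)

theorem fam_spl {en : Ordinal.{u} → ZFSet.{u}} {X : Set Ordinal.{u}} {β μ κ : Ordinal.{u}}
    {F : ZFSet.{u}} (hF : Fam en X β F) {σ z0 : Ordinal.{u}} (hσ : σ < β) (hz0 : nth X σ z0) :
    SplV μ κ F σ ↔ SpA en μ κ (X ∩ Iio z0) z0 :=
  spl_iff (fam_agv hF hσ hz0) (fam_eqv hF hσ hz0)

theorem fam_bd {en : Ordinal.{u} → ZFSet.{u}} {X : Set Ordinal.{u}} {β γ : Ordinal.{u}}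
    {K : Cardinal.{u}} {F : ZFSet.{u}} (hF : Fam en X β F) (hγ : Fit γ K)
    (hX : ∀ z ∈ X, GoodZ en γ z) (i : Ordinal.{u}) :
    ∃ l : Ordinal.{u}, (∃ ν < K, NF.Sz ν (V_ (succ l))) ∧ ∀ x a : ZFSet.{u},
      ZFSet.pair x (ZFSet.pair i.toZFSet a) ∈ F → a ∈ V_ l := by
  by_cases h : ∃ z, nth X i z
  · obtain ⟨z, hz⟩ := h
    obtain ⟨l, hl, hl'⟩ := hX z hz.1
    refine ⟨l, hγ.few _ (hγ.lim.succ_lt hl), fun x a hm => ?_⟩
    obtain ⟨-, z', hz', h1⟩ := (hF x i a).1 hm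
    rw [Pool.Agent.H17.HD.XK.nth_uniq HD.All.vh hz' hz] at h1
    exact hl' x a h1
  · refine ⟨0, hγ.few _ (hγ.lim.succ_lt hγ.lim.bot_lt), fun x a hm => ?_⟩
    obtain ⟨-, z', hz', -⟩ := (hF x i a).1 hm
    exact absurd ⟨z', hz'⟩ h

theorem eqv_symm {F x y : ZFSet.{u}} {i : Ordinal.{u}} (h : Eqv F x y i) : Eqv F y x i :=
  fun a => (h a).symm

theorem agv_trans {F x y z : ZFSet.{u}} {i : Ordinal.{u}} (h : AgV F x y i) (h' : AgV F z y i) :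
    AgV F x z i := fun k hk a => (h k hk a).trans (h' k hk a).symm

/-- FPT. The finest partition. -/
theorem pf_FPT (h1 : T_TWV.{u}) (h2 : T_GDW.{u}) (h3 : T_LOV.{u}) : T_FPT.{u} := by
  classical
  intro δ hδ hA K hK hδK γ hγ μ hμ hωμ
  obtain ⟨η, -, θ, j, hj⟩ := HD.All.xa δ hδ 0
  obtain ⟨D, rfl, hDr, hDs, hD0⟩ := HD.All.xb δ η θ j hj
  have hDK : D < K := Cardinal.ord_lt_ord.1 hδK
  have hKlim : IsSuccLimit K.ord := Cardinal.isSuccLimit_ord (hD0.trans hDK).le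
  have hDlim : IsSuccLimit D.ord := Cardinal.isSuccLimit_ord hD0.le
  obtain ⟨en, hen⟩ := HD.All.en.{u}
  set N : Set Ordinal.{u} := {z | recJ (Phi en γ μ K.ord) (fun _ => 0) z} with hN
  have hNds : DS N := DO.sect (P := fun x w => recJ (Phi en γ μ K.ord) w x)
    (HD.All.eb en hen (Phi en γ μ K.ord) (do_phi h3 hen γ μ K.ord)) (fun _ => 0)
  have hNiff : ∀ z, z ∈ N ↔ GoodZ en γ z ∧ SpA en μ K.ord (N ∩ Iio z) z := by
    intro z
    have hs : {y | y < z ∧ recJ (Phi en γ μ K.ord) (fun _ => 0) y} = N ∩ Iio z := by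
      ext y
      exact and_comm
    show recJ _ _ z ↔ _
    rw [recJ_iff, hs]
    constructor
    · rintro ⟨hg, G, hG, hsp⟩
      exact ⟨hg, (codeF_spl hG inter_subset_right).1 hsp⟩
    · rintro ⟨hg, hsp⟩
      obtain ⟨G, hG⟩ := codeF_ex en z (N ∩ Iio z)
      exact ⟨hg, G, hG, (codeF_spl hG inter_subset_right).2 hsp⟩
  have hNg : ∀ z ∈ N, GoodZ en γ z := fun z hz => ((hNiff z).1 hz).1
  have hfew : Few D.ord N := by
    rcases (HD.All.vh N).2.2.2 D.ord with hf | hn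
    · exact hf
    · exfalso
      obtain ⟨F, hF, hFf⟩ := fam_ex hen hNds D.ord
      have h4 := few_iff.1 (h1 D.ord hδ hA K hK hδK μ hμ hωμ F hF)
      have h5 : Iio D.ord ⊆ SpV μ K.ord F := by
        intro i hi
        obtain ⟨z, hz⟩ := hn i hi
        refine ⟨(show i < D.ord from hi).trans hδK, (fam_spl hFf hi hz).2 ((hNiff z).1 hz.1).2⟩
      have h6 := Cardinal.mk_le_mk_of_subset h5
      rw [Cardinal.mk_Iio_ordinal, Cardinal.card_ord] at h6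
      exact absurd h4 (not_lt.2 h6)
  obtain ⟨τ, hτ, -, hτn⟩ := Pool.Agent.H17.HD.XK.idx HD.All.vh hfew
  obtain ⟨F, hF, hFf⟩ := fam_ex hen hNds τ
  have hag : ∀ x y, AgV F x y τ → ∀ z ∈ N, EqC en z x y := by
    intro x y h z hz
    obtain ⟨a, -, ha⟩ := (HD.All.vh N).1 z hz
    have haτ := hτn a z ha
    exact (fam_eqv hFf haτ ha x y).1 (h a haτ)
  refine ⟨F, τ, hF, hτ, h2 D.ord hδ hA K hK hδK μ hμ hωμ F hF
    (fun i _ => fam_bd hFf hγ hNg i) τ (hτ.trans hδK), fun l hl R hR hRV => ?_⟩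
  obtain ⟨z, rfl⟩ := (hen.od R).1 hR
  have hzg : GoodZ en γ z := ⟨l, hl, hRV⟩
  by_cases hzN : z ∈ N
  · refine ⟨univ, ⟨fun a ha => ⟨succ a, hKlim.succ_lt ha, lt_succ a, mem_univ _⟩,
      fun _ _ _ _ => mem_univ _⟩, fun x y _ _ h => hag x y h z hzN⟩
  · set X : Set Ordinal.{u} := {w | (w ∈ N ∧ w < z) ∨ w = z} with hXd
    have hX : DS X := DO.or (DO.and hNds (DO.ltc 0 z)) (DO.eqc 0 z)
    have hXz : X ∩ Iio z = N ∩ Iio z := by
      ext w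
      constructor
      · rintro ⟨h4 | h4, h5⟩
        · exact ⟨h4.1, h5⟩
        · exact absurd h4 (ne_of_lt h5)
      · rintro ⟨h4, h5⟩
        exact ⟨Or.inl ⟨h4, h5⟩, h5⟩
    have hXg : ∀ w ∈ X, GoodZ en γ w := by
      rintro w (h4 | h4)
      · exact hNg w h4.1
      · rw [h4]; exact hzg
    have hXfew : Few D.ord X := by
      obtain ⟨τ0, hτ0, e, he⟩ := hfew
      refine ⟨succ τ0, hDlim.succ_lt hτ0, fun a => if a = τ0 then z else e a, fun w hw => ?_⟩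
      rcases hw with h4 | h4
      · obtain ⟨a, ha, hea⟩ := he w h4.1
        exact ⟨a, ha.trans (lt_succ τ0), by simp [ha.ne, hea]⟩
      · exact ⟨τ0, lt_succ τ0, by simp [h4]⟩
    obtain ⟨τ', hτ', -, hτn'⟩ := Pool.Agent.H17.HD.XK.idx HD.All.vh hXfew
    obtain ⟨σ, -, hσ⟩ := (HD.All.vh X).1 z (Or.inr rfl)
    have hσD : succ σ < D.ord := hDlim.succ_lt ((hτn' σ z hσ).trans hτ')
    obtain ⟨F', hF', hFf'⟩ := fam_ex hen hX (succ σ)
    obtain ⟨τ1, -, g, hg1, hg2⟩ := h2 D.ord hδ hA K hK hδK μ hμ hωμ F' hF'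
      (fun i _ => fam_bd hFf' hγ hXg i) (succ σ) (hσD.trans hδK)
    unfold PosX at hg2
    push Not at hg2
    obtain ⟨C, hC, hg2⟩ := hg2
    have hpc : ∀ x, SmS μ K.ord C x → PcV μ K.ord F' x (succ σ) := by
      intro x hx C' hC'
      obtain ⟨i, hi, hix⟩ := hg2 x hx
      obtain ⟨w, hw, hwg⟩ := hg1 i hi C' hC'
      exact ⟨w, hw, agv_trans hwg hix⟩
    refine ⟨C, hC, fun x y hx hy h => ?_⟩
    by_contra hne
    apply hzN
    refine (hNiff z).2 ⟨hzg, ?_⟩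
    rw [← hXz, ← fam_spl hFf' (lt_succ σ) hσ]
    refine ⟨x, Pool.Agent.H97.PRK.sms_sub hx, y, Pool.Agent.H97.PRK.sms_sub hy, hpc x hx, hpc y hy,
      (fam_agv hFf' (lt_succ σ) hσ x y).2 fun k hk => ?_, fun heq => ?_⟩
    · rw [hXz] at hk
      exact hag x y h k hk.1
    · exact hne ((fam_eqv hFf' (lt_succ σ) hσ x y).1 heq)

end Pool.Agent.H1.HV
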