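import Pool.Agent.H97.HV.Targets

/-!
# Row HMN of the board hov (MP_e37c09_lc): regressive functions are constant on final segments
-/

open _root_.HD HD.PRK HD.HV
open Ordinal Cardinal Order Set
open scoped ZFSet

universe u

namespace Pool.Agent.H1.HV

theorem pair_mem_V {β a b : Ordinal.{u}} (hβ : IsSuccLimit β) (ha : a < β) (hb : b < β) :
    ZFSet.pair a.toZFSet b.toZFSet ∈ V_ β := by
  rw [ZFSet.mem_vonNeumann]
  have h1 : (ZFSet.pair a.toZFSet b.toZFSet).rank ≤ succ (succ (max a b)) := by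
    unfold ZFSet.pair
    rw [ZFSet.rank_pair, ZFSet.rank_singleton, ZFSet.rank_pair, Ordinal.rank_toZFSet,
      Ordinal.rank_toZFSet]
    refine max_le ?_ ?_
    · exact succ_le_succ (succ_le_succ (le_max_left _ _))
    · refine succ_le_succ (max_le ?_ ?_)
      · exact succ_le_succ (le_max_left _ _)
      · exact succ_le_succ (le_max_right _ _)
  exact lt_of_le_of_lt h1 (hβ.succ_lt (hβ.succ_lt (max_lt ha hb)))

/-- HMN. -/
theorem pf_HMN : T_HMN.{u} := by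
  intro en γ M K c C e g A hA β hβ hβ0 hU f hf hfun hreg
  have hlim : IsSuccLimit β := by
    rcases hβ.lt_or_eq with hlt | rfl
    · refine g.ve.lim β (g.ve.clb.cls β hlt hβ0 fun y hy => ?_) hlt
      obtain ⟨a, haA, hya, haβ⟩ := hU y hy
      exact ⟨a, haβ, hya, (hA a haA).1⟩
    · exact Cardinal.isSuccLimit_ord g.kunc.le
  have hfV : f ⊆ V_ β := by
    intro z hz
    have h1 := hfun.1 hz
    rw [ZFSet.mem_prod] at h1
    obtain ⟨x, hx, y, hy, rfl⟩ := h1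
    obtain ⟨a, ha, rfl⟩ := Ordinal.mem_toZFSet_iff.1 hx
    obtain ⟨b, hb, rfl⟩ := Ordinal.mem_toZFSet_iff.1 hy
    exact pair_mem_V hlim ha hb
  obtain ⟨z, hz, hze⟩ : ∃ z < β, f = e z ∩ V_ β := by
    rcases hβ.lt_or_eq with hlt | rfl
    · refine (g.ve.tr β (g.ve.clb.cls β hlt hβ0 fun y hy => ?_) hlt f).1 ⟨hf, hfV⟩
      obtain ⟨a, haA, hya, haβ⟩ := hU y hy
      exact ⟨a, haβ, hya, (hA a haA).1⟩
    · obtain ⟨z, hz, hze⟩ := g.ve.onto f ⟨hf, hfV⟩
      refine ⟨z, hz, ?_⟩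
      rw [← hze]
      ext w
      rw [ZFSet.mem_inter]
      exact ⟨fun h => ⟨h, hfV h⟩, fun h => h.1⟩
  -- membership
  have hmem : ∀ a < β, ∀ b < β, (ZFSet.pair a.toZFSet b.toZFSet ∈ e z ↔
      ZFSet.pair a.toZFSet b.toZFSet ∈ f) := by
    intro a ha b hb
    rw [hze, ZFSet.mem_inter]
    exact ⟨fun h => ⟨h, pair_mem_V hlim ha hb⟩, fun h => h.1⟩
  have hval : ∀ a < β, 0 < a → ∃ b < a, ZFSet.pair a.toZFSet b.toZFSet ∈ f := by
    intro a ha ha0
    obtain ⟨w, hw, -⟩ := hfun.2 a.toZFSet (Ordinal.toZFSet_mem_toZFSet_iff.2 ha)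
    have h1 := hfun.1 hw
    rw [ZFSet.pair_mem_prod] at h1
    obtain ⟨b, -, rfl⟩ := Ordinal.mem_toZFSet_iff.1 h1.2
    exact ⟨b, hreg a b hw ha0, hw⟩
  have hzK : z < K.ord := lt_of_lt_of_le hz hβ
  rcases g.nrm z hzK with ⟨n0, h⟩ | h
  · refine ⟨succ z, hlim.succ_lt hz, n0, fun a haA hza haβ => ?_⟩
    obtain ⟨haC, haE, haM⟩ := hA a haA
    obtain ⟨h1, h2, -⟩ := h a haC haE haM (lt_of_lt_of_le (lt_succ z) hza)
      (lt_of_lt_of_le haβ hβ)
    exact (hmem a haβ n0 (h1.trans haβ)).1 h2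
  · exfalso
    obtain ⟨a, haA, hza, haβ⟩ := hU z hz
    obtain ⟨haC, haE, haM⟩ := hA a haA
    obtain ⟨b, hba, hp⟩ := hval a haβ (lt_of_le_of_lt zero_le hza)
    exact h a haC haE haM hza (lt_of_lt_of_le haβ hβ) b hba
      ((hmem a haβ b (hba.trans haβ)).2 hp)

end Pool.Agent.H1.HV
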