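import Pool.Agent.H97.HV.Targets2
import Pool.Agent.H97.PRK.All

/-!
# Row NVL of the board hov (MP_e37c09_lc): no new subsets of `m × V_ l`
-/

open Ordinal Cardinal Order Set
open scoped ZFSet

universe u

namespace Pool.Agent.H1.HV

open _root_.HD HD.PRK HD.HV

/-- NVL. No new subsets of `m × V_ l`. -/
theorem pf_NVL (h1 : T_L3V.{u}) (h2 : T_DFV.{u}) : T_NVL.{u} := by
  classical
  intro δ hδ hA K hK hδK l hl
  have h0 : HD.PRK.T_CI.{u} := Pool.Agent.H97.PRK.a_CI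
  obtain ⟨η, -, θ, j, hj⟩ := HD.All.xa δ hδ 0
  obtain ⟨D, rfl, hDr, hDs, hD0⟩ := HD.All.xb δ η θ j hj
  have hDK : D < K := Cardinal.ord_lt_ord.1 hδK
  have hom : ω < D.ord := by
    rw [← Cardinal.ord_aleph0]; exact Cardinal.ord_lt_ord.2 hD0
  obtain ⟨F, hF, hsec, hval, hk, hbad⟩ := h2 D K l
  have hex : ∀ μ : Ordinal.{u}, ∃ C, Clb K.ord C ∧ (μ < D.ord → ω ≤ μ → ∀ x,
      SmS μ K.ord C x → ∃ Z, OD Z ∧ sx K.ord l F x ∈ Z ∧ ∃ ν < D, NF.Sz ν Z) := by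
    intro μ
    by_cases hμ : μ < D.ord ∧ ω ≤ μ
    · obtain ⟨C, hC, hC'⟩ := h1 D.ord hδ hA D K rfl hK hδK μ hμ.1 hμ.2 l hl F hF hsec hval hk
      exact ⟨C, hC, fun _ _ => hC'⟩
    · obtain ⟨C, hC, -⟩ := h1 D.ord hδ hA D K rfl hK hδK ω hom le_rfl l hl F hF hsec hval hk
      exact ⟨C, hC, fun a b => absurd ⟨a, b⟩ hμ⟩
  choose C hC hCx using hex
  refine ⟨_, h0 K hK (hD0.trans hDK) D.ord hδK C (fun i _ => hC i), ?_⟩
  intro x hx R hR hRp
  by_contra hcon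
  have hcon' : ¬ ∃ Z, OD Z ∧ R ∈ Z ∧ ∃ ν < D, NF.Sz ν Z := by
    rintro ⟨Z, hZ, hBZ, ν, hν, hs⟩
    exact hcon ⟨Z, hZ, hBZ, ν, Cardinal.ord_lt_ord.2 hν, hs⟩
  have hxK : x ⊆ K.ord.toZFSet := by
    intro z hz
    obtain ⟨a, ha, -, -, rfl⟩ := hx.mem z hz
    exact toZFSet_mem_toZFSet_iff.2 ha
  obtain ⟨-, -, -, hno⟩ := hbad x hxK R ⟨hx.ne, hR, hRp, hcon'⟩
  apply hno
  obtain ⟨τ, hτ, g, hg⟩ := hx.few
  -- the bound of the cofinalities
  let c : τ.ToType → Ordinal.{u} := fun t =>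
    if (g (Ordinal.ToType.mk.symm t).1).cof.ord < D.ord then
      (g (Ordinal.ToType.mk.symm t).1).cof.ord else 0
  have hD0' : (0 : Ordinal.{u}) < D.ord := by
    have : (0 : Cardinal.{u}) < D := lt_of_lt_of_le Cardinal.aleph0_pos hD0.le
    simpa using Cardinal.ord_lt_ord.2 this
  have hc : ∀ t, c t < D.ord := by
    intro t
    simp only [c]
    split_ifs with h
    · exact h
    · exact hD0'
  have hsup : ⨆ t, c t < D.ord := by
    refine Ordinal.iSup_lt_of_lt_cof ?_ hc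
    rw [Cardinal.mk_toType, hDr.cof_ord]
    exact Cardinal.lt_ord.1 hτ
  set μ : Ordinal.{u} := max ω (max τ (⨆ t, c t)) with hμdef
  have hμD : μ < D.ord := max_lt hom (max_lt hτ hsup)
  have hsm : SmS μ K.ord (C μ) x := by
    refine ⟨hx.ne, fun z hz => ?_, g, fun a ha => ?_⟩
    · obtain ⟨a, ha, haC, hacof, rfl⟩ := hx.mem z hz
      refine ⟨a, ha, haC μ hμD, ?_, rfl⟩
      obtain ⟨i, hi, hgi⟩ := hg a hz
      have hle : a.cof.ord ≤ ⨆ t, c t := by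
        have h4 : c (Ordinal.ToType.mk ⟨i, hi⟩) = a.cof.ord := by
          simp only [c, OrderIso.symm_apply_apply, hgi]
          rw [if_pos hacof]
        rw [← h4]
        exact le_ciSup Ordinal.bddAbove_of_small _
      exact hle.trans ((le_max_right _ _).trans (le_max_right _ _))
    · obtain ⟨i, hi, hgi⟩ := hg a ha
      exact ⟨i, lt_of_lt_of_le hi ((le_max_left _ _).trans (le_max_right _ _)), hgi⟩
  exact hCx μ hμD (le_max_left _ _) x hsm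

end Pool.Agent.H1.HV
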